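import Pool.Agent.helper12.PFS.Spec

/-!
# Almost perfect starters (MP_16a903_co): row EXX
-/

set_option autoImplicit false

namespace Pool.Agent.PFS

/-- the commutative group structure on a subgroup with commuting elements -/
@[reducible] def EXX_cg {G : Type} [Group G] (K : Subgroup G) (hc : ∀ x ∈ K, ∀ y ∈ K, x * y = y * x) : CommGroup K :=
  { (inferInstance : Group K) with
    mul_comm := fun a b => Subtype.ext (hc a.1 a.2 b.1 b.2) }

/-- EXX -/
theorem EXX : EXX_stmt := by
  intro G _ _ p hp K hK hcard hcomm hpow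
  let cg : CommGroup K := EXX_cg K hcomm
  have hmulK : ∀ a b : K, ((a * b : K) : G) = (a : G) * (b : G) := fun a b => rfl
  have hone : ((1 : K) : G) = 1 := rfl
  have hpowK : ∀ a : K, a ^ p = 1 := by
    intro a
    have h1 : ∀ n : ℕ, ((a ^ n : K) : G) = (a : G) ^ n := by
      intro n
      induction n with
      | zero => rw [pow_zero, pow_zero]; rfl
      | succ n ih => rw [pow_succ, pow_succ, hmulK, ih]
    apply Subtype.ext
    rw [h1 p, hpow a.1 a.2]
    rfl
  let md : Module (ZMod p) (Additive K) := AddCommGroup.zmodModule (n := p) (G := Additive K) (by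
    intro x
    exact hpowK x.toMul)
  have hfin : Finite (Additive K) := inferInstanceAs (Finite K)
  have hpg : IsPGroup p K := by
    intro a
    exact ⟨1, by rw [pow_one]; exact hpowK a⟩
  obtain ⟨n, hn⟩ := (IsPGroup.iff_card (p := p) (G := K)).mp hpg
  have hn0 : n ≠ 0 := by
    rintro rfl
    rw [hn, pow_zero] at hcard
    exact absurd hcard (lt_irrefl _)
  obtain ⟨k, rfl⟩ := Nat.exists_eq_succ_of_ne_zero hn0
  classical
  refine ⟨Additive K, inferInstance, md, hfin, k, hn, ⟨{
    pr := QuotientGroup.mk' K
    em := fun u => ((u.toMul : K) : G)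
    sec := fun q => if q = 1 then 1 else q.out
    chi := fun g u => Additive.ofMul ⟨g * ((u.toMul : K) : G) * g⁻¹, hK.conj_mem _ u.toMul.2 g⟩
    em_add := fun u v => rfl
    em_inj := ?_
    ker := ?_
    pr_em := ?_
    pr_sec := ?_
    sec_one := by simp only [if_true]
    conj := fun g u => rfl }⟩⟩
  · intro u v h
    exact Additive.toMul.injective (Subtype.ext h)
  · intro g hg
    have h1 : g ∈ K := (QuotientGroup.eq_one_iff g).mp hg
    exact ⟨Additive.ofMul ⟨g, h1⟩, rfl⟩
  · intro u
    exact (QuotientGroup.eq_one_iff _).mpr u.toMul.2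
  · intro q
    by_cases h : q = 1
    · simp only [h, if_true, map_one]
    · simp only [h, if_false]
      exact Quotient.out_eq' q

end Pool.Agent.PFS
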